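import Pool.Agent.Helper45.L.Defs
import Pool.Agent.SC.Levels

/-!
# Project L, block K5: the local theorem
-/

set_option autoImplicit false

namespace Pool.Agent.L

open VC IntermediateField NumberField IsDedekindDomain Pool.Agent.SC Pool.Agent.Helper91.Sect
open Pool.Agent.HG (Pr nm IsOdd)

noncomputable section

/-! ## Valuation rings and automorphisms -/

section val

variable {E : Type} [Field E] {O : ValuationSubring E}

theorem nonunit29 {σ : E ≃+* E} (h : ∀ z, σ z ∈ O ↔ z ∈ O) (z : E) :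
    O.valuation (σ z) < 1 ↔ O.valuation z < 1 := by
  rw [← ValuationSubring.mem_nonunits_iff, ← ValuationSubring.mem_nonunits_iff,
    ValuationSubring.mem_nonunits_iff_or, ValuationSubring.mem_nonunits_iff_or, ← map_inv₀, h,
    map_eq_zero_iff _ σ.injective]

variable {k : Type} [Field k] [Algebra k E]

theorem stab_pow29 {σ : E ≃ₐ[k] E} (h : ∀ z, σ z ∈ O ↔ z ∈ O) (n : ℕ) (z : E) :
    (σ ^ n) z ∈ O ↔ z ∈ O := by
  induction n generalizing z with
  | zero => rfl
  | succ n ih => rw [pow_succ, AlgEquiv.mul_apply, ih, h]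

theorem inert_pow29 {τ : E ≃ₐ[k] E} (h : Inert O τ.toRingEquiv) (n : ℕ) :
    Inert O (τ ^ n).toRingEquiv := by
  have hst : ∀ z, τ z ∈ O ↔ z ∈ O := h.stab
  refine ⟨fun z => stab_pow29 hst n z, fun z hz => ?_⟩
  change O.valuation ((τ ^ n) z - z) < 1
  induction n with
  | zero =>
    rw [pow_zero, AlgEquiv.one_apply, sub_self, map_zero]
    exact zero_lt_one
  | succ n ih =>
    have e : (τ ^ (n + 1)) z - z = τ ((τ ^ n) z - z) + (τ z - z) := by
      rw [pow_succ', AlgEquiv.mul_apply, map_sub]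
      ring
    rw [e]
    exact Valuation.map_add_lt _ ((nonunit29 (σ := τ.toRingEquiv) h.stab _).2 ih) (h.res z hz)

theorem iter29 (σ : E ≃ₐ[k] E) (n : ℕ) (z : E) : (σ ^ n) z = (σ : E → E)^[n] z := by
  induction n generalizing z with
  | zero => rfl
  | succ n ih => rw [pow_succ, AlgEquiv.mul_apply, ih, Function.iterate_succ_apply]

theorem frob_pow29 {σ : E ≃ₐ[k] E} {p f : ℕ} (h : IsFrobAt O σ.toRingEquiv p f) {m : ℕ}
    (hm : 0 < m) : IsFrobAt O (σ ^ m).toRingEquiv p (f * m) := by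
  have hst : ∀ z, σ z ∈ O ↔ z ∈ O := h.stable
  refine ⟨h.prime, Nat.mul_pos h.pos hm, h.rank, h.residue, fun z => stab_pow29 hst m z,
    fun z hz => ?_, fun z => ?_⟩
  · change O.valuation ((σ ^ m) z - z ^ p ^ (f * m)) < 1
    clear hm
    induction m with
    | zero =>
      rw [pow_zero, AlgEquiv.one_apply, mul_zero, pow_zero, pow_one, sub_self, map_zero]
      exact zero_lt_one
    | succ m ih =>
      have e : (σ ^ (m + 1)) z - z ^ p ^ (f * (m + 1)) = σ ((σ ^ m) z - z ^ p ^ (f * m)) +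
          (σ (z ^ p ^ (f * m)) - (z ^ p ^ (f * m)) ^ p ^ f) := by
        rw [pow_succ' σ, AlgEquiv.mul_apply, map_sub, mul_add, mul_one, pow_add p, pow_mul z]
        ring
      rw [e]
      exact Valuation.map_add_lt _ ((nonunit29 (σ := σ.toRingEquiv) h.stable _).2 ih)
        (h.frob _ (O.pow_mem hz _))
  · obtain ⟨n, hn, h1⟩ := h.orb z
    refine ⟨n, hn, ?_⟩
    have h2 : (σ ^ n) z = z := by rw [iter29]; exact h1
    change (((σ ^ m : E ≃ₐ[k] E) : E → E)^[n]) z = z
    rw [← iter29, ← pow_mul, mul_comm, pow_mul]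
    clear hm
    induction m with
    | zero => rfl
    | succ m ih => rw [pow_succ, AlgEquiv.mul_apply, h2, ih]

end val

/-! ## Unramified extensions -/

section unr

variable {E U : Type} [Field E] [IsAlgClosed E] [CharZero E] [Field U] [Algebra E U]
  {N : IntermediateField E U}

omit [IsAlgClosed E] [CharZero E] in
theorem map_nonunits29 {Q : Place E N} {b : N ≃ₐ[E] N} {ℓ : ℕ} (hℓ : 0 < ℓ) (hb : b ^ ℓ = 1)
    (hQ : ∀ x ∈ Q.ring, b x ∈ Q.ring) : ∀ x ∈ Q.ring.nonunits, b x ∈ Q.ring.nonunits := by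
  have hQn : ∀ (n : ℕ), ∀ x ∈ Q.ring, (b ^ n) x ∈ Q.ring := by
    intro n
    induction n with
    | zero => exact fun x hx => hx
    | succ n ih =>
      intro x hx
      rw [pow_succ', AlgEquiv.mul_apply]
      exact hQ _ (ih x hx)
  intro x hx
  rw [ValuationSubring.mem_nonunits_iff_or] at hx ⊢
  rcases hx with rfl | hx
  · left
    exact map_zero _
  · right
    intro h
    apply hx
    rw [← map_inv₀] at h
    have h1 := hQn (ℓ - 1) _ h
    have h2 : (b ^ (ℓ - 1)) (b x⁻¹) = x⁻¹ := by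
      rw [← AlgEquiv.mul_apply, ← pow_succ, Nat.sub_add_cancel hℓ, hb]
      rfl
    rwa [h2] at h1

/-- an automorphism of prime order of `N` over `M` which fixes a place is trivial -/
theorem unram29 {M : IntermediateField E U} (hc : IsCover M) (hMN : M ≤ N)
    (hN : IsFunctionField E N) {b : N ≃ₐ[E] N} {ℓ : ℕ} (hℓ : ℓ.Prime) (hb : b ^ ℓ = 1)
    (hbM : ∀ x : N, (x : U) ∈ M → b x = x) {Q : Place E N}
    (hQ : ∀ x ∈ Q.ring, b x ∈ Q.ring) : b = 1 := by
  by_contra hne
  obtain ⟨x, hx⟩ : ∃ x : N, b x ≠ x := by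
    by_contra hcon
    push Not at hcon
    exact hne (AlgEquiv.ext hcon)
  obtain ⟨ζ, hζ, v, -, hv0, hv⟩ := exists_eigenvector hℓ (g := b) hb (N := ⊤)
    (fun x _ => IntermediateField.mem_top) (x := x) IntermediateField.mem_top hx
  have hζ1 : ζ ≠ 1 := hζ.ne_one hℓ.one_lt
  obtain ⟨W, hW⟩ := SC.exists_place_over (K := E) (M := N) (N := U) Q
  obtain ⟨m, hmM, hm⟩ := hc.unr W.ring W.algebraMap_mem (v : U)
  have hv0' : (v : U) ≠ 0 := fun h => hv0 (Subtype.ext h)
  have hm0 : m ≠ 0 := by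
    rintro rfl
    rw [map_zero, Valuation.zero_iff] at hm
    exact hv0' hm
  have hval : W.ring.valuation ((v : U) / m) = 1 := by
    rw [map_div₀, hm, div_self ((Valuation.ne_zero_iff _).2 hm0)]
  obtain ⟨mN, hmN⟩ : ∃ mN : N, (mN : U) = m := ⟨⟨m, hMN hmM⟩, rfl⟩
  have hcoe : ((v / mN : N) : U) = (v : U) / m := by
    rw [← hmN]
    rfl
  have hbm : b mN = mN := hbM mN (by rw [hmN]; exact hmM)
  refine not_unit_of_fixed (E := E) (R := Q.ring) (σ := fun x : N => b x) (v := v / mN) (ξ := ζ)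
    ?_ Q.algebraMap_mem ?_ ?_ hζ1 ?_ ?_ ?_
  · intro c x
    rw [map_add, AlgEquiv.commutes]
  · intro x hx
    exact FF.exists_residue hN Q hx
  · exact map_nonunits29 hℓ.pos hb hQ
  · rw [map_div₀, hv, hbm, mul_div_assoc]
  · rw [← hW]
    change ((v / mN : N) : U) ∈ W.ring
    rw [hcoe, ← W.ring.valuation_le_one_iff, hval]
  · intro h
    rw [ValuationSubring.mem_nonunits_iff_or] at h
    rcases h with h | h
    · have h1 := congrArg (fun z : N => (z : U)) h
      simp only [hcoe, ZeroMemClass.coe_zero] at h1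
      exact div_ne_zero hv0' hm0 h1
    · apply h
      rw [← hW]
      change (((v / mN)⁻¹ : N) : U) ∈ W.ring
      have h2 : (((v / mN)⁻¹ : N) : U) = ((v : U) / m)⁻¹ := by
        rw [← hcoe]
        rfl
      rw [h2, ← W.ring.valuation_le_one_iff, map_inv₀, hval, inv_one]

end unr

/-! ## Agreement on levels -/

section agree

variable {E U K0 : Type} [Field E] [Field U] [Field K0] [Algebra E U] [Algebra K0 U]

/-- automorphisms which agree on `K0`, `Z'` and on finitely many constants agree at `z` -/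
theorem agree29 {Z' : Finset U} {N : IntermediateField E U}
    (hN : N = IntermediateField.adjoin E (Set.range (algebraMap K0 U) ∪ Z')) (z : N) :
    ∃ C : Finset E, ∀ (T : U ≃+* U) (b : N ≃ₐ[E] N),
      (∀ x : K0, T (algebraMap K0 U x) = algebraMap K0 U x) →
      (∀ x : N, (x : U) ∈ L0 E K0 (U := U) → b x = x) →
      (∀ x : N, (x : U) ∈ Z' → T x = b x) →
      (∀ e ∈ C, T (algebraMap E U e) = algebraMap E U e) → T z = b z := by
  classical
  subst hN
  obtain ⟨z, hz⟩ := z
  induction hz using IntermediateField.adjoin_induction with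
  | mem x hx =>
    refine ⟨∅, fun T b hT hb hZ _ => ?_⟩
    rcases hx with ⟨y, rfl⟩ | hx
    · have h1 : b ⟨algebraMap K0 U y, subset_adjoin _ _ (Or.inl ⟨y, rfl⟩)⟩ =
          ⟨algebraMap K0 U y, subset_adjoin _ _ (Or.inl ⟨y, rfl⟩)⟩ :=
        hb _ (subset_adjoin _ _ ⟨y, rfl⟩)
      have h2 := hT y
      change T (algebraMap K0 U y) = _
      rw [h2]
      exact (congrArg Subtype.val h1).symm
    · exact hZ ⟨x, subset_adjoin _ _ (Or.inr hx)⟩ hx
  | algebraMap e =>
    refine ⟨{e}, fun T b _ _ _ hC => ?_⟩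
    have h1 := hC e (Finset.mem_singleton_self _)
    change T (algebraMap E U e) = _
    rw [h1]
    have h2 := b.commutes e
    exact (congrArg Subtype.val h2).symm
  | add x y hx hy ihx ihy =>
    obtain ⟨C₁, h1⟩ := ihx
    obtain ⟨C₂, h2⟩ := ihy
    refine ⟨C₁ ∪ C₂, fun T b hT hb hZ hC => ?_⟩
    have e1 := h1 T b hT hb hZ fun e he => hC e (Finset.mem_union_left _ he)
    have e2 := h2 T b hT hb hZ fun e he => hC e (Finset.mem_union_right _ he)
    have e3 := congrArg Subtype.val (map_add b ⟨x, hx⟩ ⟨y, hy⟩)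
    change T (x + y) = _
    rw [map_add]
    exact (congrArg₂ (· + ·) e1 e2).trans e3.symm
  | inv x hx ih =>
    obtain ⟨C, h1⟩ := ih
    refine ⟨C, fun T b hT hb hZ hC => ?_⟩
    have e1 := h1 T b hT hb hZ hC
    have e3 := congrArg Subtype.val (map_inv₀ b ⟨x, hx⟩)
    change T (x⁻¹) = _
    rw [map_inv₀]
    exact (congrArg (·⁻¹) e1).trans e3.symm
  | mul x y hx hy ihx ihy =>
    obtain ⟨C₁, h1⟩ := ihx
    obtain ⟨C₂, h2⟩ := ihy
    refine ⟨C₁ ∪ C₂, fun T b hT hb hZ hC => ?_⟩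
    have e1 := h1 T b hT hb hZ fun e he => hC e (Finset.mem_union_left _ he)
    have e2 := h2 T b hT hb hZ fun e he => hC e (Finset.mem_union_right _ he)
    have e3 := congrArg Subtype.val (map_mul b ⟨x, hx⟩ ⟨y, hy⟩)
    change T (x * y) = _
    rw [map_mul]
    exact (congrArg₂ (· * ·) e1 e2).trans e3.symm

/-- an automorphism which is trivial on `S` is trivial on `E(S)` -/
theorem fix_adjoin29 {N : IntermediateField E U} {S : Set U}
    (hS : IntermediateField.adjoin E S ≤ N) {b : N ≃ₐ[E] N} (hb : ∀ x : N, (x : U) ∈ S → b x = x)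
    (x : N) (hx : (x : U) ∈ IntermediateField.adjoin E S) : b x = x := by
  obtain ⟨x, hxN⟩ := x
  change x ∈ IntermediateField.adjoin E S at hx
  induction hx using IntermediateField.adjoin_induction with
  | mem x hx => exact hb _ hx
  | algebraMap e => exact b.commutes e
  | add x y hx hy ihx ihy =>
    have e3 := map_add b ⟨x, hS hx⟩ ⟨y, hS hy⟩
    rw [ihx (hS hx), ihy (hS hy)] at e3
    exact e3
  | inv x hx ih =>
    have e3 := map_inv₀ b ⟨x, hS hx⟩
    rw [ih (hS hx)] at e3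
    exact e3
  | mul x y hx hy ihx ihy =>
    have e3 := map_mul b ⟨x, hS hx⟩ ⟨y, hS hy⟩
    rw [ihx (hS hx), ihy (hS hy)] at e3
    exact e3

/-- an automorphism of `U` which maps `E` to `E` and `S` to `E(S)` maps `E(S)` to `E(S)` -/
theorem map_adjoin29 {S : Set U} {T : U ≃+* U} (hE : ∀ e : E, ∃ e' : E,
    T (algebraMap E U e) = algebraMap E U e') (hS : ∀ x ∈ S, T x ∈ IntermediateField.adjoin E S)
    {x : U} (hx : x ∈ IntermediateField.adjoin E S) : T x ∈ IntermediateField.adjoin E S := by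
  induction hx using IntermediateField.adjoin_induction with
  | mem x hx => exact hS _ hx
  | algebraMap e =>
    obtain ⟨e', he'⟩ := hE e
    rw [he']
    exact IntermediateField.algebraMap_mem _ e'
  | add x y hx hy ihx ihy =>
    rw [map_add]
    exact add_mem ihx ihy
  | inv x hx ih =>
    rw [map_inv₀]
    exact inv_mem ih
  | mul x y hx hy ihx ihy =>
    rw [map_mul]
    exact mul_mem ihx ihy

/-- the group of a level over `L0` -/
def HS (K0 : Type) [Field K0] [Algebra K0 U] (N : IntermediateField E U) :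
    Subgroup (N ≃ₐ[E] N) where
  carrier := {b | ∀ x : N, (x : U) ∈ L0 E K0 (U := U) → b x = x}
  mul_mem' := by
    intro a b ha hb x hx
    rw [AlgEquiv.mul_apply, hb x hx, ha x hx]
  one_mem' := fun x _ => rfl
  inv_mem' := by
    intro a ha x hx
    have h1 := ha x hx
    change a⁻¹ x = x
    conv_lhs => rw [← h1]
    rw [← AlgEquiv.mul_apply, inv_mul_cancel]
    rfl

end agree

/-- a permutation of a finite set has finite order -/
theorem exists_pow29 {U : Type} {Z : Finset U} (h : U → U) (hi : Function.Injective h)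
    (hZ : ∀ z ∈ Z, h z ∈ Z) : ∃ m : ℕ, 0 < m ∧ ∀ z ∈ Z, h^[m] z = z := by
  classical
  let g : Z → Z := fun z => ⟨h z, hZ z z.2⟩
  have hg : Function.Injective g := fun a b hab => Subtype.ext (hi (congrArg Subtype.val hab))
  let σ : Equiv.Perm Z := Equiv.ofBijective g (Finite.injective_iff_bijective.1 hg)
  have h1 : ∀ (n : ℕ) (z : Z), (((σ ^ n) z : Z) : U) = h^[n] z := by
    intro n
    induction n with
    | zero => intro z; rfl
    | succ n ih =>
      intro z
      rw [pow_succ, Equiv.Perm.mul_apply, ih, Function.iterate_succ_apply]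
      rfl
  refine ⟨orderOf σ, orderOf_pos σ, fun z hz => ?_⟩
  rw [← h1 _ ⟨z, hz⟩, pow_orderOf_eq_one]
  rfl

theorem exists_cont29 {k E U : Type} [Field k] [Field E] [Field U] [Algebra k E]
    {Φ : (E ≃ₐ[k] E) →* (U ≃+* U)} (cont : ∀ z : U, ∃ L : IntermediateField k E,
      FiniteDimensional k L ∧ ∀ g : E ≃ₐ[k] E, (∀ x ∈ L, g x = x) → Φ g z = z) (Z : Finset U) :
    ∃ L : IntermediateField k E, FiniteDimensional k L ∧
      ∀ g : E ≃ₐ[k] E, (∀ x ∈ L, g x = x) → ∀ z ∈ Z, Φ g z = z := by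
  classical
  induction Z using Finset.induction_on with
  | empty => exact ⟨⊥, inferInstance, fun g _ z hz => absurd hz (by simp)⟩
  | insert z Z _ ih =>
    obtain ⟨L₁, h1, h2⟩ := ih
    obtain ⟨L₂, h3, h4⟩ := cont z
    refine ⟨L₁ ⊔ L₂, inferInstance, fun g hg w hw => ?_⟩
    rcases Finset.mem_insert.1 hw with rfl | hw
    · exact h4 g fun x hx => hg x (le_sup_right (a := L₁) hx)
    · exact h2 g (fun x hx => hg x (le_sup_left (b := L₂) hx)) w hw

/-! ## The fixed branch point -/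

section branch

variable {k K0 E U : Type} [Field k] [Field K0] [Field E] [Field U] [Algebra k K0]
    [Algebra k E] [Algebra E U] [Algebra K0 U] [Algebra k U] [IsScalarTower k E U]
    [IsScalarTower k K0 U]

/-- the function field `K0` in the level `N` -/
def toN29 (E : Type) [Field E] [Algebra E U] (N : IntermediateField E U)
    (hN : ∀ x : K0, algebraMap K0 U x ∈ N) : K0 →+* N :=
  (algebraMap K0 U).codRestrict N.toSubfield hN

variable [IsAlgClosed E] [CharZero E]

omit [IsAlgClosed E] [CharZero E] in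
theorem const_unique29 {N : IntermediateField E U} (Q : Place E N) {x : N} {e e' : E}
    (h : x - algebraMap E N e ∈ Q.ring.nonunits) (h' : x - algebraMap E N e' ∈ Q.ring.nonunits) :
    e = e' := by
  by_contra hne
  rw [ValuationSubring.mem_nonunits_iff] at h h'
  have h1 : algebraMap E N (e - e') = (x - algebraMap E N e') - (x - algebraMap E N e) := by
    rw [map_sub]
    ring
  have h2 : Q.ring.valuation (algebraMap E N (e - e')) < 1 := by
    rw [h1]
    exact Valuation.map_sub_lt _ h' h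
  have h3 : algebraMap E N (e - e') ∈ Q.ring.nonunits := by
    rw [ValuationSubring.mem_nonunits_iff]
    exact h2
  rw [ValuationSubring.mem_nonunits_iff_or, ← map_inv₀] at h3
  rcases h3 with h3 | h3
  · rw [map_eq_zero] at h3
    exact hne (sub_eq_zero.1 h3)
  · exact h3 (Q.algebraMap_mem _)

/-- the residue map -/
theorem exists_res29 {N : IntermediateField E U} (hN : IsFunctionField E N) (Q : Place E N) :
    ∃ ρ : Q.ring →+* E, ∀ x : Q.ring, (x : N) - algebraMap E N (ρ x) ∈ Q.ring.nonunits := by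
  choose ρ hρ using fun x : Q.ring => FF.exists_residue hN Q x.2
  have huniq : ∀ (x : Q.ring) (e : E), (x : N) - algebraMap E N e ∈ Q.ring.nonunits → ρ x = e :=
    fun x e h => const_unique29 Q (hρ x) h
  have hadd : ∀ {x y : N}, x ∈ Q.ring.nonunits → y ∈ Q.ring.nonunits → x + y ∈ Q.ring.nonunits := by
    intro x y hx hy
    rw [ValuationSubring.mem_nonunits_iff] at hx hy ⊢
    exact Q.ring.valuation.map_add_lt hx hy
  have hmul : ∀ {x y : N}, x ∈ Q.ring → y ∈ Q.ring.nonunits → x * y ∈ Q.ring.nonunits :=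
    fun hx hy => FF.mul_mem_nonunits hx hy
  have hzero : (0 : N) ∈ Q.ring.nonunits := by
    rw [ValuationSubring.mem_nonunits_iff, map_zero]
    exact zero_lt_one
  refine ⟨{ toFun := ρ, map_one' := ?_, map_mul' := ?_, map_zero' := ?_, map_add' := ?_ }, hρ⟩
  · apply huniq
    rw [map_one]
    change (1 : N) - 1 ∈ _
    rw [sub_self]
    exact hzero
  · intro x y
    apply huniq
    have e1 : ((x * y : Q.ring) : N) - algebraMap E N (ρ x * ρ y) =
        (x : N) * ((y : N) - algebraMap E N (ρ y)) +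
          algebraMap E N (ρ y) * ((x : N) - algebraMap E N (ρ x)) := by
      rw [map_mul]
      push_cast
      ring
    rw [e1]
    exact hadd (hmul x.2 (hρ y)) (hmul (Q.algebraMap_mem _) (hρ x))
  · apply huniq
    rw [map_zero]
    change (0 : N) - 0 ∈ _
    rw [sub_self]
    exact hzero
  · intro x y
    apply huniq
    have e1 : ((x + y : Q.ring) : N) - algebraMap E N (ρ x + ρ y) =
        ((x : N) - algebraMap E N (ρ x)) + ((y : N) - algebraMap E N (ρ y)) := by
      rw [map_add]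
      push_cast
      ring
    rw [e1]
    exact hadd (hρ x) (hρ y)

/-- the conclusion of block K5 from the fixed place -/
theorem branch29 {h : K0} {r : U} (hr : r ^ 2 = algebraMap K0 U h) (hr0 : r ≠ 0)
    {N : IntermediateField E U} (hN : IsFunctionField E N) (hMN : MM E K0 r ≤ N)
    {b : N ≃ₐ[E] N} (hbK : ∀ x : N, (x : U) ∈ L0 E K0 (U := U) → b x = x) (hb2 : b ^ 2 = 1)
    (hbr : ∀ x : N, (x : U) = r → b x = -x) {Q : Place E N} (hQ : ∀ x ∈ Q.ring, b x ∈ Q.ring)
    (F : E ≃ₐ[k] E) (φ : N ≃+* N) (hφE : ∀ e : E, φ (algebraMap E N e) = algebraMap E N (F e))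
    (hφK : ∀ x : N, (∃ y : K0, algebraMap K0 U y = x) → φ x = x)
    (hQQ : ∀ x : N, (x : U) ∈ MM E K0 r → (x ∈ Q.ring ↔ φ.symm x ∈ Q.ring)) :
    FixesBranch h F := by
  have hKM : ∀ x : K0, algebraMap K0 U x ∈ MM E K0 r := fun x =>
    subset_adjoin _ _ (Or.inl ⟨x, rfl⟩)
  have hKL : ∀ x : K0, algebraMap K0 U x ∈ L0 E K0 (U := U) := fun x =>
    subset_adjoin _ _ ⟨x, rfl⟩
  have hrM : r ∈ MM E K0 r := subset_adjoin _ _ (Or.inr rfl)
  let j : K0 →+* N := toN29 E N fun x => hMN (hKM x)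
  have hj : ∀ x : K0, ((j x : N) : U) = algebraMap K0 U x := fun x => rfl
  have hjk : ∀ a : k, j (algebraMap k K0 a) = algebraMap E N (algebraMap k E a) := by
    intro a
    apply Subtype.ext
    rw [hj]
    change _ = algebraMap E U (algebraMap k E a)
    rw [← IsScalarTower.algebraMap_apply k K0 U, ← IsScalarTower.algebraMap_apply k E U]
  obtain ⟨ρ, hρ⟩ := exists_res29 hN Q
  let P : ValuationSubring K0 := Q.ring.comap j
  have hP : ∀ x : K0, x ∈ P ↔ j x ∈ Q.ring := fun x => Iff.rfl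
  let jP : P →+* Q.ring := (j.comp P.subtype).codRestrict Q.ring fun x => x.2
  have hjP : ∀ x : P, ((jP x : Q.ring) : N) = j x := fun x => rfl
  refine ⟨P, ρ.comp jP, ?_, ?_, ?_, ?_⟩
  · intro a
    rw [hP, hjk]
    exact Q.algebraMap_mem _
  · -- the odd valuation
    intro z hz
    have hh0 : h ≠ 0 := by
      rintro rfl
      rw [map_zero] at hr
      exact hr0 (pow_eq_zero_iff two_ne_zero |>.1 hr)
    have hz0 : z ≠ 0 := by
      rintro rfl
      rw [map_zero, zero_pow two_ne_zero, Valuation.zero_iff] at hz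
      exact hh0 hz
    obtain ⟨rN, hrN⟩ : ∃ rN : N, (rN : U) = r := ⟨⟨r, hMN hrM⟩, rfl⟩
    have hrN2 : rN ^ 2 = j h := by
      apply Subtype.ext
      rw [hj, ← hr, ← hrN]
      rfl
    have hjz : j z ≠ 0 := (map_ne_zero j).2 hz0
    -- `h / z ^ 2` is a unit
    have hv : P.valuation (h / z ^ 2) = 1 := by
      rw [map_div₀, hz, map_pow, div_self]
      exact pow_ne_zero _ ((Valuation.ne_zero_iff _).2 hz0)
    have h1 : Q.ring.valuation ((rN / j z) ^ 2) = 1 := by
      have e1 : (rN / j z) ^ 2 = j (h / z ^ 2) := by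
        rw [div_pow, hrN2, map_div₀, map_pow]
      rw [e1]
      apply le_antisymm
      · rw [ValuationSubring.valuation_le_one_iff, ← hP, ← P.valuation_le_one_iff, hv]
      · have h2 : Q.ring.valuation (j (h / z ^ 2))⁻¹ ≤ 1 := by
          rw [← map_inv₀ j, ValuationSubring.valuation_le_one_iff, ← hP, ← P.valuation_le_one_iff,
            map_inv₀, hv, inv_one]
        have h3 : Q.ring.valuation (j (h / z ^ 2)) ≠ 0 := by
          rw [Valuation.ne_zero_iff]
          exact (map_ne_zero j).2 (div_ne_zero hh0 (pow_ne_zero _ hz0))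
        rw [map_inv₀] at h2
        exact (inv_le_one₀ (zero_lt_iff.2 h3)).1 h2
    have h2 : Q.ring.valuation (rN / j z) = 1 := by
      rw [map_pow] at h1
      exact (pow_eq_one_iff_of_nonneg zero_le two_ne_zero).1 h1
    have hbz : b (j z) = j z := hbK _ (hKL z)
    have hbr' : b rN = -rN := hbr rN hrN
    refine not_unit_of_fixed (E := E) (R := Q.ring) (σ := fun x : N => b x) (v := rN / j z)
      (ξ := -1) ?_ Q.algebraMap_mem ?_ ?_ ?_ ?_ ?_ ?_
    · intro c x
      rw [map_add, AlgEquiv.commutes]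
    · intro x hx
      exact FF.exists_residue hN Q hx
    · exact map_nonunits29 two_pos hb2 hQ
    · intro h3
      have h4 : (2 : E) = 0 := by linear_combination -h3
      exact two_ne_zero h4
    · rw [map_div₀, hbr', hbz, map_neg, map_one]
      ring
    · rw [← ValuationSubring.valuation_le_one_iff, h2]
    · rw [ValuationSubring.mem_nonunits_iff, h2]
      exact lt_irrefl _
  · intro a x hx
    apply const_unique29 Q (hρ (jP x))
    rw [hjP, hx, hjk, sub_self, ValuationSubring.mem_nonunits_iff, map_zero]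
    exact zero_lt_one
  · intro x
    change F (ρ (jP x)) = ρ (jP x)
    refine const_unique29 Q (x := j x) ?_ (hρ (jP x))
    have h1 := hρ (jP x)
    rw [hjP] at h1
    have hyM : ∀ e : E, ((j x - algebraMap E N e : N) : U) ∈ MM E K0 r := by
      intro e
      exact sub_mem (hKM x) (IntermediateField.algebraMap_mem _ e)
    have hsymm : φ.symm (j x - algebraMap E N (F (ρ (jP x)))) =
        j x - algebraMap E N (ρ (jP x)) := by
      rw [RingEquiv.symm_apply_eq, map_sub, hφE, hφK _ ⟨x, rfl⟩]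
    rw [ValuationSubring.mem_nonunits_iff_or] at h1 ⊢
    rcases h1 with h1 | h1
    · left
      rw [← hsymm, map_eq_zero_iff _ φ.symm.injective] at h1
      exact h1
    · right
      intro h2
      apply h1
      have h3 : (((j x - algebraMap E N (F (ρ (jP x))))⁻¹ : N) : U) ∈ MM E K0 r :=
        inv_mem (hyM _)
      rw [hQQ _ h3, map_inv₀, hsymm] at h2
      exact h2

end branch

/-! ## The local theorem -/

/-- **BLOCK K5.** -/
theorem k5 (hK2 : StmtK2) (hK3 : StmtK3) (hK4 : StmtK4) (hAR : StmtAR) : StmtK5 := by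
  classical
  intro k K0 E U _ _ _ _ _ _ _ _ _ _ _ _ h r geo
  have hcl : IsAlgClosed E := geo.clE
  have halg : Algebra.IsAlgebraic k E := geo.algE
  have hch : CharZero E := charZero_of_injective_algebraMap (algebraMap k E).injective
  obtain ⟨Z4, hZ4⟩ := hK4 k K0 E U h r geo
  obtain ⟨Z', C3, N, hZZ', hrZ', hN, hff, hfin, hst, hag⟩ := hK3 k K0 E U h r geo Z4
  -- the group of the level
  let HH : Subgroup (N ≃ₐ[E] N) := HS K0 N
  have hHfin : Finite HH := hfin
  have hKN : ∀ x : K0, algebraMap K0 U x ∈ N := fun x => by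
    rw [hN]
    exact subset_adjoin _ _ (Or.inl ⟨x, rfl⟩)
  have hZN : ∀ z ∈ Z', z ∈ N := fun z hz => by
    rw [hN]
    exact subset_adjoin _ _ (Or.inr hz)
  have hMN : MM E K0 r ≤ N := by
    rw [hN]
    refine adjoin.mono E _ _ (Set.union_subset_union_right _ ?_)
    rintro _ rfl
    exact hrZ'
  have hLN : L0 E K0 (U := U) ≤ N := by
    rw [hN]
    exact adjoin.mono E _ _ (Set.subset_union_left)
  have hKL : ∀ x : K0, algebraMap K0 U x ∈ L0 E K0 (U := U) := fun x =>
    subset_adjoin _ _ ⟨x, rfl⟩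
  have hr0 : r ≠ 0 := by
    rintro rfl
    exact geo.rnot (zero_mem _)
  -- the data of block K2
  have hK2' : ∀ b : N ≃ₐ[E] N, ∃ (Z : Finset N) (S : Finset E), (∀ s ∈ S, s ≠ 0) ∧
      ((∃ ℓ : ℕ, ℓ.Prime ∧ b ^ ℓ = 1) → b ≠ 1 → (∀ P : Place E N, ∃ x ∈ P.ring, b x ∉ P.ring) →
      ∀ (O : ValuationSubring E) (σ τ : E ≃+* E) (p f : ℕ) (h T : U ≃+* U),
      FPair O σ τ p f h T → (∀ s ∈ S, O.valuation s = 1) → (∀ z ∈ Z, h z = z) →
      (∀ z ∈ Z, T z = b z) → False) := by
    intro b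
    by_cases hb : (∃ ℓ : ℕ, ℓ.Prime ∧ b ^ ℓ = 1) ∧ b ≠ 1 ∧
        ∀ P : Place E N, ∃ x ∈ P.ring, b x ∉ P.ring
    · obtain ⟨⟨ℓ, hℓ, h1⟩, h2, h3⟩ := hb
      obtain ⟨Z, S, h4, h5⟩ := hK2 E U (MM E K0 r) geo.cover N hff b ℓ hℓ h1 h2 h3
      exact ⟨Z, S, h4, fun _ _ _ => h5⟩
    · exact ⟨∅, ∅, by simp, fun h1 h2 h3 => absurd ⟨h1, h2, h3⟩ hb⟩
  choose Zb Sb hSb0 hKb using hK2'
  choose Cz hCz using fun z : N => agree29 (K0 := K0) hN z
  have hHft : Fintype HH := Fintype.ofFinite HH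
  let ZZ : Finset N := Finset.univ.biUnion fun b : HH => Zb b.1
  obtain ⟨Z2, -, -, hZ2, -, -, -, -, hst2, -⟩ :=
    hK3 k K0 E U h r geo (ZZ.image (Subtype.val : N → U))
  let Ctot : Finset E := C3 ∪ ZZ.biUnion Cz
  let Stot : Finset E := insert (Nat.card HH : E) (Finset.univ.biUnion fun b : HH => Sb b.1)
  have hcard0 : (Nat.card HH : E) ≠ 0 := Nat.cast_ne_zero.2 Nat.card_pos.ne'
  have hStot : ∀ s ∈ Stot, s ≠ 0 := by
    intro s hs
    rcases Finset.mem_insert.1 hs with rfl | hs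
    · exact hcard0
    · obtain ⟨b, -, hb⟩ := Finset.mem_biUnion.1 hs
      exact hSb0 b.1 s hb
  obtain ⟨Bad, hBad, hgood⟩ := hAR k E Stot Ctot hStot
  refine ⟨Bad, hBad, ?_⟩
  intro v hv c hc hodd Φ hΦ O F p f hdec
  obtain ⟨hS, hC⟩ := hgood v hv O hdec.above
  obtain ⟨τ, hτ, hτd⟩ := hdec.odd c hodd
  have hτC := hC τ hτ
  -- the action of the inertia element
  obtain ⟨d, hd⟩ := IsAlgClosed.exists_pow_nat_eq (algebraMap k E c) two_pos
  have hd0 : d ≠ 0 := by
    rintro rfl
    rw [zero_pow two_ne_zero] at hd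
    exact hc ((map_eq_zero _).1 hd.symm)
  obtain ⟨T, hT⟩ : ∃ T : U ≃+* U, T = Φ τ := ⟨_, rfl⟩
  have hTr : T r = -r := by
    have h1 := hΦ.tw τ d hd
    rw [← hT, hτd d hd, map_neg] at h1
    have hd0' : algebraMap E U d ≠ 0 := (map_ne_zero _).2 hd0
    apply mul_right_cancel₀ hd0'
    linear_combination -h1
  have hTK : ∀ x : K0, T (algebraMap K0 U x) = algebraMap K0 U x := fun x => by
    rw [hT]
    exact hΦ.fixK τ x
  have hTE : ∀ e : E, T (algebraMap E U e) = algebraMap E U (τ e) := fun e => by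
    rw [hT]
    exact hΦ.const τ e
  obtain ⟨b0, hb0K, hb0⟩ := hag T hTK (fun e => ⟨τ e, hTE e⟩) (fun e he => by
    rw [hTE, hτC e (Finset.mem_union_left _ he)])
  have hTZ : ∀ z ∈ Z', T z ∈ Z' := hst T hTK
  have hpow : ∀ (n : ℕ) (z : N), (z : U) ∈ Z' → (T ^ n) (z : U) = ((b0 ^ n) z : N) := by
    intro n
    induction n with
    | zero => intro z _; rfl
    | succ n ih =>
      intro z hz
      have h1 : (T ^ (n + 1)) (z : U) = (T ^ n) (T (z : U)) := by
        rw [pow_succ]
        rfl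
      have h2 := hTZ _ hz
      rw [hb0 z hz] at h2
      rw [h1, hb0 z hz, ih _ h2, pow_succ, AlgEquiv.mul_apply]
  have hb0H : b0 ∈ HH := hb0K
  -- powers of prime order have fixed places
  have hprime : ∀ n ℓ : ℕ, ℓ.Prime → (b0 ^ n) ^ ℓ = 1 → b0 ^ n ≠ 1 →
      ∃ P : Place E N, ∀ x ∈ P.ring, (b0 ^ n) x ∈ P.ring := by
    intro n ℓ hℓ h1 h2
    by_contra hcon
    push Not at hcon
    have hbH : b0 ^ n ∈ HH := HH.pow_mem hb0H n
    have hΦF : ∀ z ∈ Z2, Φ F z ∈ Z2 := hst2 (Φ F) (hΦ.fixK F)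
    obtain ⟨m, hm, hm1⟩ := exists_pow29 (Φ F) (Φ F).injective hΦF
    have hm2 : ∀ z ∈ Z2, Φ (F ^ m) z = z := by
      intro z hz
      rw [map_pow]
      have h3 : ∀ (i : ℕ) (y : U), ((Φ F) ^ i) y = (Φ F : U → U)^[i] y := by
        intro i
        induction i with
        | zero => intro y; rfl
        | succ i ih =>
          intro y
          rw [pow_succ, Function.iterate_succ_apply, ← ih]
          rfl
      rw [h3]
      exact hm1 z hz
    refine hKb (b0 ^ n) ⟨ℓ, hℓ, h1⟩ h2 hcon O (F ^ m).toRingEquiv (τ ^ n).toRingEquiv p (f * m)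
      (Φ (F ^ m)) (Φ (τ ^ n)) ?_ ?_ ?_ ?_
    · refine ⟨frob_pow29 hdec.frob hm, inert_pow29 hτ n, fun c => hΦ.const _ c,
        fun c => hΦ.const _ c, ?_⟩
      intro Z m' hm'
      obtain ⟨L, hL1, hL2⟩ := exists_cont29 hΦ.cont Z
      obtain ⟨a, j, ha, hj⟩ := hdec.tame (F ^ m) (τ ^ n)
        (fun z => stab_pow29 (σ := F) hdec.frob.stable m z) (inert_pow29 hτ n) L hL1 m' hm'
      refine ⟨a, j, ha, fun z hz => ?_⟩
      have h3 := hL2 _ hj z hz
      rw [map_pow, map_mul, map_inv, map_pow, map_mul, map_mul, map_inv] at h3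
      exact h3
    · intro s hs
      exact hS s (Finset.mem_insert_of_mem (Finset.mem_biUnion.2 ⟨⟨_, hbH⟩, Finset.mem_univ _, hs⟩))
    · intro z hz
      refine hm2 _ (hZ2 (Finset.mem_image_of_mem _ ?_))
      exact Finset.mem_biUnion.2 ⟨⟨_, hbH⟩, Finset.mem_univ _, hz⟩
    · intro z hz
      have hzZ : z ∈ ZZ := Finset.mem_biUnion.2 ⟨⟨_, hbH⟩, Finset.mem_univ _, hz⟩
      refine hCz z (Φ (τ ^ n)) (b0 ^ n) (hΦ.fixK _) hbH ?_ ?_
      · intro x hx
        rw [map_pow, ← hT]
        exact hpow n x hx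
      · intro e he
        rw [hΦ.const]
        have h4 : τ e = e := hτC e (Finset.mem_union_right _ (Finset.mem_biUnion.2 ⟨z, hzZ, he⟩))
        have h5 : (τ ^ n) e = e := by
          rw [iter29]
          exact Function.iterate_fixed h4 n
        rw [h5]
  -- `b0 ^ 2 = 1`
  have hbr : ∀ x : N, (x : U) = r → b0 x = -x := by
    intro x hx
    apply Subtype.ext
    rw [← hb0 x (by rw [hx]; exact hrZ'), hx, hTr]
    rw [← hx]
    rfl
  have hsq : ∀ x : N, (x : U) ∈ MM E K0 r → (b0 ^ 2) x = x := by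
    refine fun x hx => fix_adjoin29 (b := b0 ^ 2) hMN ?_ x hx
    intro x hx
    rw [pow_two, AlgEquiv.mul_apply]
    rcases hx with hx | hx
    · have h1 : (x : U) ∈ L0 E K0 (U := U) := subset_adjoin _ _ hx
      rw [hb0K x h1, hb0K x h1]
    · have h1 : (x : U) = r := hx
      rw [hbr x h1, map_neg, hbr x h1, neg_neg]
  have hb2 : b0 ^ 2 = 1 := by
    by_contra hne
    have hfo : 0 < orderOf (⟨b0 ^ 2, HH.pow_mem hb0H 2⟩ : HH) := orderOf_pos _
    obtain ⟨n, hn⟩ : ∃ n, n = orderOf (⟨b0 ^ 2, HH.pow_mem hb0H 2⟩ : HH) := ⟨_, rfl⟩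
    rw [← hn] at hfo
    have hn' : n = orderOf (b0 ^ 2) := by
      rw [hn]
      exact (Subgroup.orderOf_coe _).symm
    have hn1 : n ≠ 1 := by
      rw [hn']
      intro h1
      exact hne (orderOf_eq_one_iff.1 h1)
    obtain ⟨ℓ, hℓ, i, hi⟩ := Nat.exists_prime_and_dvd hn1
    have hi0 : 0 < i := by
      rcases Nat.eq_zero_or_pos i with h1 | h1
      · rw [h1, mul_zero] at hi
        omega
      · exact h1
    have h1 : (b0 ^ (2 * i)) ^ ℓ = 1 := by
      rw [← pow_mul, mul_assoc, mul_comm i ℓ, ← hi, pow_mul, hn', pow_orderOf_eq_one]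
    have h2 : b0 ^ (2 * i) ≠ 1 := by
      rw [pow_mul]
      refine pow_ne_one_of_lt_orderOf hi0.ne' ?_
      rw [← hn', hi]
      have := hℓ.two_le
      nlinarith
    obtain ⟨P, hP⟩ := hprime (2 * i) ℓ hℓ h1 h2
    apply h2
    refine unram29 geo.cover hMN hff hℓ h1 ?_ hP
    intro x hx
    rw [pow_mul]
    have h3 := hsq x hx
    clear hi hi0 h1 h2 hP
    induction i with
    | zero => rfl
    | succ i ih => rw [pow_succ, AlgEquiv.mul_apply, h3, ih]
  have hb1 : b0 ≠ 1 := by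
    intro h1
    have h2 := hbr ⟨r, hZN r hrZ'⟩ rfl
    rw [h1] at h2
    have h3 : r = -r := congrArg Subtype.val h2
    have hcU : CharZero U := charZero_of_injective_algebraMap (algebraMap E U).injective
    have h4 : (2 : U) * r = 0 := by linear_combination h3
    rcases mul_eq_zero.1 h4 with h5 | h5
    · exact two_ne_zero h5
    · exact hr0 h5
  obtain ⟨Q, hQ⟩ := hprime 1 2 Nat.prime_two (by rw [pow_one]; exact hb2) (by rw [pow_one]; exact hb1)
  rw [pow_one] at hQ
  -- the Frobenius element on `N`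
  have hΦN : ∀ (g : E ≃ₐ[k] E) (x : U), x ∈ N → Φ g x ∈ N := by
    intro g x hx
    rw [hN] at hx ⊢
    refine map_adjoin29 (fun e => ⟨g e, hΦ.const g e⟩) ?_ hx
    rintro y (⟨y, rfl⟩ | hy)
    · rw [hΦ.fixK]
      exact subset_adjoin _ _ (Or.inl ⟨y, rfl⟩)
    · exact subset_adjoin _ _ (Or.inr (hst (Φ g) (hΦ.fixK g) y hy))
  have hinv : ∀ x : U, Φ F (Φ F⁻¹ x) = x := by
    intro x
    have h1 : Φ F * Φ F⁻¹ = 1 := by rw [← map_mul, mul_inv_cancel, map_one]
    exact congrArg (fun g : U ≃+* U => g x) h1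
  have hinv' : ∀ x : U, Φ F⁻¹ (Φ F x) = x := by
    intro x
    have h1 : Φ F⁻¹ * Φ F = 1 := by rw [← map_mul, inv_mul_cancel, map_one]
    exact congrArg (fun g : U ≃+* U => g x) h1
  let φ : N ≃+* N :=
    { toFun := fun x => ⟨Φ F x, hΦN F x x.2⟩
      invFun := fun x => ⟨Φ F⁻¹ x, hΦN F⁻¹ x x.2⟩
      left_inv := fun x => Subtype.ext (hinv' x)
      right_inv := fun x => Subtype.ext (hinv x)
      map_mul' := fun x y => Subtype.ext (map_mul (Φ F) (x : U) y)
      map_add' := fun x y => Subtype.ext (map_add (Φ F) (x : U) y) }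
  have hφ : ∀ x : N, ((φ x : N) : U) = Φ F x := fun x => rfl
  have hφs : ∀ x : N, ((φ.symm x : N) : U) = Φ F⁻¹ x := fun x => rfl
  have hφE : ∀ e : E, φ (algebraMap E N e) = algebraMap E N (F e) := fun e =>
    Subtype.ext (hΦ.const F e)
  have hφsE : ∀ e : E, φ.symm (algebraMap E N e) = algebraMap E N (F⁻¹ e) := fun e =>
    Subtype.ext (hΦ.const F⁻¹ e)
  let b1 : N ≃ₐ[E] N := AlgEquiv.ofRingEquiv (f := (φ.symm.trans b0.toRingEquiv).trans φ) (by
    intro e
    change φ (b0 (φ.symm (algebraMap E N e))) = _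
    rw [hφsE, AlgEquiv.commutes, hφE]
    congr 1
    exact F.apply_symm_apply e)
  have hb1a : ∀ x : N, b1 x = φ (b0 (φ.symm x)) := fun x => rfl
  have hφL : ∀ (g : E ≃ₐ[k] E) (x : U), x ∈ L0 E K0 (U := U) → Φ g x ∈ L0 E K0 (U := U) := by
    intro g x hx
    refine map_adjoin29 (fun e => ⟨g e, hΦ.const g e⟩) ?_ hx
    rintro y ⟨y, rfl⟩
    rw [hΦ.fixK]
    exact subset_adjoin _ _ ⟨y, rfl⟩
  have hb1H : b1 ∈ HH := by
    intro x hx
    rw [hb1a, hb0K _ (by rw [hφs]; exact hφL F⁻¹ _ hx)]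
    exact φ.apply_symm_apply x
  -- `b1 = b0`
  have hb01 : b1 = b0 := by
    obtain ⟨L, hL1, hL2⟩ := exists_cont29 hΦ.cont Z'
    obtain ⟨a, j, ha, hj⟩ := hdec.tame F τ hdec.frob.stable hτ L hL1 2 two_ne_zero
    have hao : Odd a := by
      by_contra hcon
      rw [Nat.not_odd_iff_even] at hcon
      have h1 := ha (-1) (by norm_num)
      rw [hcon.neg_one_pow, map_neg, map_one] at h1
      have h2 : (2 : E) = 0 := by linear_combination -h1
      exact two_ne_zero h2
    have hba : b0 ^ a = b0 := by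
      obtain ⟨t, rfl⟩ := hao
      rw [pow_add, pow_mul, hb2, one_pow, one_mul, pow_one]
    have hbb : ∀ x : N, b0 (b0 x) = x := by
      intro x
      have h1 := congrArg (fun g : N ≃ₐ[E] N => g x) hb2
      simp only [pow_two] at h1
      exact h1
    have hst' : ∀ (g : E ≃ₐ[k] E), ∀ z ∈ Z', Φ g z ∈ Z' := fun g => hst (Φ g) (hΦ.fixK g)
    obtain ⟨W, hW⟩ : ∃ W : U ≃+* U, W = (T ^ a)⁻¹ * (Φ F * T * (Φ F)⁻¹) := ⟨_, rfl⟩
    have hWΦ : W = Φ ((τ ^ a)⁻¹ * (F * τ * F⁻¹)) := by
      rw [hW, map_mul, map_inv, map_pow, map_mul, map_mul, map_inv, hT]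
    let w : N ≃ₐ[E] N := b0 * b1
    have hwH : w ∈ HH := HH.mul_mem hb0H hb1H
    have hb1Z : ∀ x : N, (x : U) ∈ Z' → ((b1 x : N) : U) ∈ Z' := by
      intro x hx
      have h1 : ((φ.symm x : N) : U) ∈ Z' := by
        rw [hφs]
        exact hst' F⁻¹ _ hx
      rw [hb1a, hφ, ← hb0 _ h1]
      exact hst' F _ (hTZ _ h1)
    have hwZ : ∀ x : N, (x : U) ∈ Z' → ((w x : N) : U) ∈ Z' := by
      intro x hx
      change ((b0 (b1 x) : N) : U) ∈ Z'
      rw [← hb0 _ (hb1Z x hx)]
      exact hTZ _ (hb1Z x hx)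
    have hWw : ∀ x : N, (x : U) ∈ Z' → W (x : U) = ((w x : N) : U) := by
      intro x hx
      have h1 : ((φ.symm x : N) : U) ∈ Z' := by
        rw [hφs]
        exact hst' F⁻¹ _ hx
      have h2 : (Φ F * T * (Φ F)⁻¹) (x : U) = ((b1 x : N) : U) := by
        change Φ F (T ((Φ F)⁻¹ (x : U))) = _
        rw [← map_inv, ← hφs, hb0 _ h1]
        rfl
      have h3 : (T ^ a) ((w x : N) : U) = ((b1 x : N) : U) := by
        rw [hpow a _ (hwZ x hx), hba]
        change ((b0 (b0 (b1 x)) : N) : U) = _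
        rw [hbb]
      rw [hW]
      change (T ^ a)⁻¹ ((Φ F * T * (Φ F)⁻¹) (x : U)) = _
      rw [h2, ← h3]
      exact (T ^ a).symm_apply_apply _
    have hWwn : ∀ (n : ℕ) (x : N), (x : U) ∈ Z' → (W ^ n) (x : U) = (((w ^ n) x : N) : U) := by
      intro n
      induction n with
      | zero => intro x _; rfl
      | succ n ih =>
        intro x hx
        have h1 : (W ^ (n + 1)) (x : U) = (W ^ n) (W (x : U)) := by
          rw [pow_succ]
          rfl
        rw [h1, hWw x hx, ih _ (hwZ x hx), pow_succ w]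
        rfl
    have hw1 : w ^ p ^ j = 1 := by
      apply AlgEquiv.ext
      intro x
      rw [AlgEquiv.one_apply]
      have hle : IntermediateField.adjoin E (Set.range (algebraMap K0 U) ∪ (Z' : Set U)) ≤ N :=
        hN.symm.le
      refine fix_adjoin29 (b := w ^ p ^ j) hle ?_ x (by rw [← hN]; exact x.2)
      rintro y (hy | hy)
      · exact (HH.pow_mem hwH _) y (subset_adjoin _ _ hy)
      · apply Subtype.ext
        rw [← hWwn _ y hy, hWΦ, ← map_pow]
        exact hL2 _ hj _ hy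
    have hpc : ¬ p ∣ Nat.card HH := by
      rintro ⟨q, hq⟩
      have h1 := hS (Nat.card HH : E) (Finset.mem_insert_self _ _)
      rw [hq, Nat.cast_mul, map_mul] at h1
      have h2 : O.valuation (q : E) ≤ 1 := by
        rw [O.valuation_le_one_iff]
        exact natCast_mem O q
      have h3 := mul_lt_one_of_lt_of_le hdec.frob.residue h2
      rw [h1] at h3
      exact lt_irrefl _ h3
    have hw2 : (⟨w, hwH⟩ : HH) = 1 := by
      rw [← orderOf_eq_one_iff]
      have h1 : orderOf (⟨w, hwH⟩ : HH) ∣ p ^ j := by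
        apply orderOf_dvd_of_pow_eq_one
        apply Subtype.ext
        exact hw1
      have h2 : orderOf (⟨w, hwH⟩ : HH) ∣ Nat.card HH := orderOf_dvd_natCard _
      have h3 : Nat.Coprime (p ^ j) (Nat.card HH) :=
        Nat.Coprime.pow_left _ ((Nat.Prime.coprime_iff_not_dvd hdec.frob.prime).2 hpc)
      exact Nat.eq_one_of_dvd_coprimes h3 h1 h2
    have hw3 : w = 1 := congrArg Subtype.val hw2
    have h4 : b0 * (b0 * b1) = b0 * 1 := by rw [← hw3]
    rw [← mul_assoc, ← pow_two, hb2, one_mul, mul_one] at h4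
    exact h4
  have hcomm : ∀ x : N, φ.symm (b0 x) = b0 (φ.symm x) := by
    intro x
    rw [RingEquiv.symm_apply_eq, ← hb1a, hb01]
  -- the second fixed place
  let Q' : Place E N :=
    { ring := Q.ring.comap φ.symm.toRingHom
      algebraMap_mem := fun e => by
        change φ.symm (algebraMap E N e) ∈ Q.ring
        rw [hφsE]
        exact Q.algebraMap_mem _
      ne_top := by
        intro htop
        apply Q.ne_top
        rw [eq_top_iff]
        intro x _
        have h1 : φ x ∈ Q.ring.comap φ.symm.toRingHom := by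
          rw [htop]
          trivial
        have h2 : φ.symm (φ x) ∈ Q.ring := h1
        rwa [φ.symm_apply_apply] at h2 }
  have hQ' : ∀ x : N, x ∈ Q'.ring ↔ φ.symm x ∈ Q.ring := fun x => Iff.rfl
  have hQQ := hZ4 N hMN (fun z hz => hZN z (hZZ' hz)) hff b0 hb0K hb2 hbr Q Q' hQ (by
    intro x hx
    rw [hQ'] at hx ⊢
    rw [hcomm]
    exact hQ _ hx)
  refine branch29 geo.rsq hr0 hff hMN hb0K hb2 hbr hQ F φ hφE ?_ fun x hx => ?_
  · rintro x ⟨y, hy⟩
    apply Subtype.ext
    rw [hφ, ← hy, hΦ.fixK]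
  · rw [← hQ']
    exact hQQ x hx

end

end Pool.Agent.L
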